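import Pool.Agent.H31.ST.Basic

/-! TRIG for MP_0b97f5_mp.  helper56 -/

open Set Filter Topology Matrix

noncomputable section

namespace H31.ST.H56

open H31.ST

variable {lam : ℝ}

theorem sq_le_four {x : ℝ} (hx : |x| ≤ 2) : x ^ 2 ≤ 4 := by
  rw [← sq_abs]
  have := abs_nonneg x
  nlinarith

theorem sq_lt_four {x : ℝ} (hx : |x| < 2) : x ^ 2 < 4 := by
  rw [← sq_abs]
  have := abs_nonneg x
  nlinarith

theorem den_pos (hl : 0 < lam) {x : ℝ} (hx : |x| ≤ 2) : 0 < 4 + lam ^ 2 - x ^ 2 := by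
  have := sq_le_four hx
  have : 0 < lam ^ 2 := by positivity
  linarith

theorem S_sq {y x : ℝ} (hy : |y| ≤ 2) (hx : |x| ≤ 2) :
    S lam y x ^ 2 = (4 - x ^ 2) * (4 - y ^ 2) + 4 * lam ^ 2 := by
  unfold S
  apply Real.sq_sqrt
  have h1 := sq_le_four hy
  have h2 := sq_le_four hx
  have : 0 ≤ (4 - x ^ 2) * (4 - y ^ 2) := mul_nonneg (by linarith) (by linarith)
  positivity

theorem S_bounds (hl : 0 < lam) {y x : ℝ} (hy : |y| ≤ 2) (hx : |x| ≤ 2) :
    0 < S lam y x ∧ S lam y x ≤ 2 * R lam ∧ 2 * lam ≤ S lam y x := by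
  have h1 := sq_le_four hy
  have h2 := sq_le_four hx
  have h0 : 0 ≤ S lam y x := Real.sqrt_nonneg _
  have hS := S_sq (lam := lam) hy hx
  have hR := R_sq (lam := lam)
  have hp : 0 ≤ (4 - x ^ 2) * (4 - y ^ 2) := mul_nonneg (by linarith) (by linarith)
  have h3 : 2 * lam ≤ S lam y x := by
    apply le_of_sq_le_sq _ h0
    rw [hS]; nlinarith
  refine ⟨by linarith, ?_, h3⟩
  apply le_of_sq_le_sq _ (by have := R_pos lam; linarith)
  rw [mul_pow, hR, hS]
  nlinarith [sq_nonneg x, sq_nonneg y]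

theorem g_sq (hl : 0 < lam) {x : ℝ} (hx : |x| ≤ 2) :
    g lam x ^ 2 = (4 - x ^ 2) / (4 * (4 + lam ^ 2 - x ^ 2)) := by
  unfold g
  apply Real.sq_sqrt
  have := den_pos hl hx
  have := sq_le_four hx
  apply div_nonneg <;> linarith

theorem g_nonneg (x : ℝ) : 0 ≤ g lam x := Real.sqrt_nonneg _

theorem g_pos (hl : 0 < lam) {x : ℝ} (hx : |x| < 2) : 0 < g lam x := by
  unfold g
  apply Real.sqrt_pos.mpr
  have := den_pos hl hx.le
  have := sq_lt_four hx
  apply div_pos <;> linarith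

theorem g_mul_R (hl : 0 < lam) {x : ℝ} (hx : |x| < 2) : g lam x * R lam ≤ 1 := by
  have hd := den_pos hl hx.le
  have h2 := sq_lt_four hx
  apply le_of_sq_le_sq _ (by norm_num)
  rw [mul_pow, g_sq hl hx.le, R_sq, one_pow, div_mul_eq_mul_div, div_le_one (by linarith)]
  nlinarith [sq_nonneg x, sq_nonneg lam, mul_nonneg (sq_nonneg x) (sq_nonneg lam)]

theorem yg_sq_lt (hl : 0 < lam) {y x : ℝ} (hy : |y| ≤ 2) (hx : |x| ≤ 2) :
    (y * g lam x) ^ 2 < 1 := by
  have hd := den_pos hl hx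
  have h1 := sq_le_four hy
  have h2 := sq_le_four hx
  rw [mul_pow, g_sq hl hx, mul_div_assoc', div_lt_one (by linarith)]
  have : y ^ 2 * (4 - x ^ 2) ≤ 4 * (4 - x ^ 2) := mul_le_mul_of_nonneg_right h1 (by linarith)
  have : 0 < lam ^ 2 := by positivity
  linarith

theorem yg_bounds (hl : 0 < lam) {y x : ℝ} (hy : |y| ≤ 2) (hx : |x| ≤ 2) :
    -1 < y * g lam x ∧ y * g lam x < 1 := by
  have h := yg_sq_lt hl hy hx
  have : |y * g lam x| < 1 := by
    rw [← sq_lt_sq₀ (abs_nonneg _) (by norm_num), sq_abs]; simpa using h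
  exact abs_lt.mp this

theorem phi_mem (hl : 0 < lam) {y x : ℝ} (hy : |y| ≤ 2) (hx : |x| ≤ 2) :
    0 < phi lam y x ∧ phi lam y x < Real.pi := by
  have h := yg_bounds hl hy hx
  unfold phi
  exact ⟨Real.arccos_pos.mpr h.2, Real.arccos_lt_pi.mpr h.1⟩

theorem cos_phi (hl : 0 < lam) {y x : ℝ} (hy : |y| ≤ 2) (hx : |x| ≤ 2) :
    Real.cos (phi lam y x) = y * g lam x := by
  have h := yg_bounds hl hy hx
  exact Real.cos_arccos h.1.le h.2.le

theorem theta_facts {x : ℝ} (hx : |x| < 2) :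
    Real.cos (theta x) = x / 2 ∧ 0 < Real.sin (theta x) ∧
      Real.sin (theta x) ^ 2 = (4 - x ^ 2) / 4 := by
  have h := abs_lt.mp hx
  have hc : Real.cos (theta x) = x / 2 := Real.cos_arccos (by linarith) (by linarith)
  have h0 : 0 < theta x := Real.arccos_pos.mpr (by linarith)
  have h1 : theta x < Real.pi := Real.arccos_lt_pi.mpr (by linarith)
  refine ⟨hc, Real.sin_pos_of_pos_of_lt_pi h0 h1, ?_⟩
  have := Real.sin_sq_add_cos_sq (theta x)
  rw [hc] at this
  linear_combination this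

theorem sin_phi (hl : 0 < lam) {y x : ℝ} (hy : |y| ≤ 2) (hx : |x| < 2) :
    2 * Real.sin (theta x) * Real.sin (phi lam y x) = S lam y x * g lam x := by
  obtain ⟨_, hs, hs2⟩ := theta_facts hx
  have hp := phi_mem hl hy hx.le
  have hsp : 0 < Real.sin (phi lam y x) := Real.sin_pos_of_pos_of_lt_pi hp.1 hp.2
  have hg := g_pos hl hx
  have hS := (S_bounds hl hy hx.le).1
  have hd := den_pos hl hx.le
  have h1 : (2 * Real.sin (theta x) * Real.sin (phi lam y x)) ^ 2 = (S lam y x * g lam x) ^ 2 := by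
    have h2 := Real.sin_sq_add_cos_sq (phi lam y x)
    rw [cos_phi hl hy hx.le] at h2
    have h3 : Real.sin (phi lam y x) ^ 2 = 1 - y ^ 2 * g lam x ^ 2 := by linear_combination h2
    rw [mul_pow, mul_pow, mul_pow, h3, hs2, S_sq hy hx.le, g_sq hl hx.le]
    field_simp
    ring
  have h4 : 0 < 2 * Real.sin (theta x) * Real.sin (phi lam y x) := by positivity
  have h5 : 0 < S lam y x * g lam x := by positivity
  exact (pow_left_inj₀ h4.le h5.le two_ne_zero).mp h1

theorem phase (hl : 0 < lam) {y x : ℝ} (hy : |y| ≤ 2) (hx : |x| < 2) : ∀ m : ℕ,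
    T lam y x m * g lam x = Real.cos (m * theta x + phi lam y x) ∧
    T lam y x (m + 1) * g lam x = Real.cos ((m + 1 : ℕ) * theta x + phi lam y x) := by
  obtain ⟨hc, hs, _⟩ := theta_facts hx
  intro m
  induction m with
  | zero =>
    constructor
    · simp only [T, Nat.cast_zero, zero_mul, zero_add]
      rw [cos_phi hl hy hx.le]
    · simp only [T, zero_add, Nat.cast_one, one_mul]
      rw [Real.cos_add, hc, cos_phi hl hy hx.le]
      have := sin_phi hl hy hx
      unfold zz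
      linear_combination (1 / 2) * this
  | succ m ih =>
    refine ⟨ih.2, ?_⟩
    have h1 : T lam y x (m + 1 + 1) = x * T lam y x (m + 1) - T lam y x m := rfl
    rw [h1, sub_mul, mul_assoc, ih.1, ih.2]
    obtain ⟨t, ht⟩ : ∃ t, t = ((m + 1 : ℕ) : ℝ) * theta x + phi lam y x := ⟨_, rfl⟩
    have h2 : ((m + 1 + 1 : ℕ) : ℝ) * theta x + phi lam y x = t + theta x := by
      rw [ht]; push_cast; ring
    have h3 : ((m : ℕ) : ℝ) * theta x + phi lam y x = t - theta x := by
      rw [ht]; push_cast; ring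
    rw [h2, h3, ← ht, Real.cos_add, Real.cos_sub, hc]
    ring

theorem diff (hl : 0 < lam) {y x : ℝ} (hy : |y| ≤ 2) (hx : |x| < 2) (m : ℕ) :
    (T lam y x (m + 2) - T lam y x m) * g lam x =
      - (2 * Real.sin (theta x) * Real.sin ((m + 1 : ℕ) * theta x + phi lam y x)) := by
  have h1 := (phase hl hy hx m).1
  have h2 := (phase hl hy hx (m + 1)).2
  rw [sub_mul, h1, h2]
  have h3 : ((m + 1 + 1 : ℕ) : ℝ) * theta x + phi lam y x =
      (((m + 1 : ℕ) : ℝ) * theta x + phi lam y x) + theta x := by push_cast; ring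
  have h4 : ((m : ℕ) : ℝ) * theta x + phi lam y x =
      (((m + 1 : ℕ) : ℝ) * theta x + phi lam y x) - theta x := by push_cast; ring
  rw [h3, h4, Real.cos_add, Real.cos_sub]
  ring

theorem surface {y x : ℝ} (hy : |y| ≤ 2) (hx : |x| ≤ 2) (m : ℕ) :
    (T lam y x m) ^ 2 + (T lam y x (m + 1)) ^ 2 + x ^ 2 - x * T lam y x m * T lam y x (m + 1)
      = 4 + lam ^ 2 := by
  induction m with
  | zero =>
    simp only [T]
    unfold zz
    have := S_sq (lam := lam) hy hx
    linear_combination (1 / 4) * this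
  | succ m ih =>
    have h1 : T lam y x (m + 1 + 1) = x * T lam y x (m + 1) - T lam y x m := rfl
    rw [h1]
    linear_combination ih

theorem neg_one_pow_sq (i : ℕ) : ((-1 : ℝ) ^ i) * ((-1 : ℝ) ^ i) = 1 := by
  rw [← mul_pow]; norm_num

theorem sin_sign {i : ℕ} {t : ℝ} (h1 : i * Real.pi < t) (h2 : t < (i + 1) * Real.pi) :
    0 < (-1 : ℝ) ^ i * Real.sin t := by
  have h3 : Real.sin (t - i * Real.pi) = (-1 : ℝ) ^ i * Real.sin t := by
    rw [Real.sin_sub_nat_mul_pi]
  rw [← h3]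
  apply Real.sin_pos_of_pos_of_lt_pi
  · linarith
  · linarith

theorem sheet (hl : 0 < lam) (s : Sym) (hs : s.Valid) {y x : ℝ} (h : InR1 lam s (y, x)) :
    zz lam x (X lam s y x) = (-1) ^ s.i * T lam (s.e * y) x (s.m + 1) := by
  obtain ⟨hy, hx, hp1, hp2, hX⟩ := h
  simp only at hy hx hp1 hp2 hX
  have hy' : |s.e * y| ≤ 2 := by rw [s.abs_e_mul]; exact hy
  obtain ⟨_, hst, _⟩ := theta_facts hx
  have hg := g_pos hl hx
  have hsig := sin_sign hp1 hp2
  set z' : ℝ := (-1) ^ s.i * T lam (s.e * y) x (s.m + 1) with hz'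
  set X' : ℝ := X lam s y x with hX'
  have hXd : X' = (-1) ^ s.i * T lam (s.e * y) x s.m := rfl
  have hi := neg_one_pow_sq s.i
  have hsurf := surface (lam := lam) hy' hx.le s.m
  have h1 : X' ^ 2 + z' ^ 2 + x ^ 2 - x * X' * z' = 4 + lam ^ 2 := by
    rw [hXd, hz', ← hsurf]
    linear_combination (T lam (s.e * y) x s.m ^ 2 + T lam (s.e * y) x (s.m + 1) ^ 2 -
      x * T lam (s.e * y) x s.m * T lam (s.e * y) x (s.m + 1)) * hi
  have h2 : (x * X' - 2 * z') ^ 2 = S lam x X' ^ 2 := by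
    rw [S_sq hx.le hX.le]
    linear_combination 4 * h1
  obtain ⟨m, hm⟩ : ∃ m, s.m = m + 1 := ⟨s.m - 1, by have := hs.1; omega⟩
  have h3 : 0 < x * X' - 2 * z' := by
    have hd := diff hl hy' hx m
    have hT : T lam (s.e * y) x (s.m + 1) = x * T lam (s.e * y) x s.m - T lam (s.e * y) x m := by
      rw [hm]; rfl
    have e1 : (x * X' - 2 * z') * g lam x =
        2 * Real.sin (theta x) * ((-1) ^ s.i * Real.sin (Psi lam s y x)) := by
      have hPsi : Psi lam s y x = (m + 1 : ℕ) * theta x + phi lam (s.e * y) x := by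
        unfold Psi; rw [hm]
      rw [hPsi, hXd, hz']
      have hd' : (T lam (s.e * y) x (s.m + 1) - T lam (s.e * y) x m) * g lam x =
          - (2 * Real.sin (theta x) *
            Real.sin ((m + 1 : ℕ) * theta x + phi lam (s.e * y) x)) := by
        rw [← hd, hm]
      linear_combination (-(-1) ^ s.i) * hd' - ((-1) ^ s.i * g lam x) * hT
    have e2 : 0 < (x * X' - 2 * z') * g lam x := by rw [e1]; positivity
    exact (pos_iff_pos_of_mul_pos e2).mpr hg
  have h4 : x * X' - 2 * z' = S lam x X' :=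
    (pow_left_inj₀ h3.le (Real.sqrt_nonneg _) two_ne_zero).mp h2
  unfold zz
  linear_combination (1 / 2) * h4

theorem trig : T_TRIG := by
  intro lam hl
  refine ⟨R_gt hl, fun y x hy hx => S_bounds hl hy hx, fun x hx => ⟨g_pos hl hx, g_mul_R hl hx⟩,
    fun y x hy hx => phi_mem hl hy hx, ⟨?_, ?_⟩, ?_, fun y x hy hx m => (phase hl hy hx m).1,
    fun y x hy hx m => diff hl hy hx m, fun y x hy hx m => surface hy hx m,
    fun s hs y x h => sheet hl s hs h, ?_⟩
  · unfold theta; norm_num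
  · unfold theta; norm_num
  · intro y x hx
    have h4 : x ^ 2 = 4 := by rw [← sq_abs, hx]; norm_num
    unfold phi g
    rw [h4]; simp
  · intro s hs y x hy hx
    have hy' : |s.e * y| ≤ 2 := by rw [s.abs_e_mul]; exact hy
    have hg := g_pos hl hx
    have hgR := g_mul_R hl hx
    have hph := (phase hl hy' hx s.m).1
    have hX : X lam s y x * g lam x = (-1) ^ s.i * Real.cos (Psi lam s y x) := by
      unfold X Psi
      rw [mul_assoc, hph]
    constructor
    · intro hP
      rw [hP, Real.cos_nat_mul_pi, neg_one_pow_sq] at hX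
      rw [← hX] at hgR
      have h5 : R lam * g lam x ≤ X lam s y x * g lam x := by linarith
      exact le_of_mul_le_mul_right h5 hg
    · intro hP
      have h6 : Real.cos ((s.i + 1) * Real.pi) = -(-1 : ℝ) ^ s.i := by
        have := Real.cos_nat_mul_pi (s.i + 1)
        push_cast at this
        rw [this, pow_succ]; ring
      rw [hP, h6] at hX
      have h7 : X lam s y x * g lam x = -1 := by
        rw [hX, mul_neg, neg_one_pow_sq]
      have h5 : X lam s y x * g lam x ≤ (-R lam) * g lam x := by linarith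
      exact le_of_mul_le_mul_right h5 hg

end H31.ST.H56
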