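import Pool.Agent.H56.ST.CONT
import Pool.Agent.H56.ST.TRIG

/-! CLOSE for MP_0b97f5_mp.  helper56 -/

open Set Filter Topology Matrix

noncomputable section

namespace H31.ST.H56

open H31.ST

/-- elementary implicit differentiation -/
theorem impl {G : ℝ × ℝ → ℝ × ℝ} {ξ : ℝ → ℝ} {y0 v A₁ A₂ B₁ B₂ : ℝ}
    (hG : HasFDerivAt G (ContinuousLinearMap.prod
        (A₁ • ContinuousLinearMap.fst ℝ ℝ ℝ + A₂ • ContinuousLinearMap.snd ℝ ℝ ℝ)
        (B₁ • ContinuousLinearMap.fst ℝ ℝ ℝ + B₂ • ContinuousLinearMap.snd ℝ ℝ ℝ)) (y0, ξ y0))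
    (hξ : ContinuousAt ξ y0) (hv : ∀ᶠ y in 𝓝 y0, (G (y, ξ y)).2 = v) (hB : B₂ ≠ 0) :
    HasDerivAt (fun y => (G (y, ξ y)).1) ((A₁ * B₂ - A₂ * B₁) / B₂) y0 := by
  have hv0 : (G (y0, ξ y0)).2 = v := hv.self_of_nhds
  have hten : Tendsto (fun y => (y, ξ y)) (𝓝 y0) (𝓝 (y0, ξ y0)) :=
    (continuousAt_id.prodMk hξ)
  have h1 := (hG.snd).isLittleO.comp_tendsto hten
  have h3 : (fun y => B₁ * (y - y0) + B₂ * (ξ y - ξ y0)) =o[𝓝 y0]
      (fun y => ((y - y0, ξ y - ξ y0) : ℝ × ℝ)) := by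
    refine (Asymptotics.IsLittleO.neg_left h1).congr' ?_ ?_
    · filter_upwards [hv] with y hy
      simp only [Function.comp, hy, hv0]
      simp
    · filter_upwards with y
      simp
  have hO : (fun y => ((y - y0, ξ y - ξ y0) : ℝ × ℝ)) =O[𝓝 y0] (fun y => y - y0) := by
    have hc : 0 < |B₂| / 2 := by positivity
    refine Asymptotics.IsBigO.of_bound (1 + 2 * (|B₂| / 2 + |B₁|) / |B₂|) ?_
    filter_upwards [h3.bound hc] with y hy
    rw [Prod.norm_def] at hy ⊢
    simp only [Real.norm_eq_abs] at hy ⊢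
    set h := y - y0
    set k := ξ y - ξ y0
    have e1 : |B₂| * |k| ≤ |B₁ * h + B₂ * k| + |B₁| * |h| := by
      rw [← abs_mul, ← abs_mul]
      have : B₂ * k = (B₁ * h + B₂ * k) - B₁ * h := by ring
      calc |B₂ * k| = |(B₁ * h + B₂ * k) - B₁ * h| := by rw [← this]
        _ ≤ _ := abs_sub _ _
    have e2 : max |h| |k| ≤ |h| + |k| :=
      max_le (by linarith [abs_nonneg k]) (by linarith [abs_nonneg h])
    have e3 : |B₂| * |k| ≤ |B₂| / 2 * (|h| + |k|) + |B₁| * |h| := by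
      have := mul_le_mul_of_nonneg_left e2 hc.le
      linarith
    have e4 : |k| ≤ 2 * (|B₂| / 2 + |B₁|) / |B₂| * |h| := by
      rw [div_mul_eq_mul_div, le_div_iff₀ (abs_pos.mpr hB)]
      nlinarith
    calc max |h| |k| ≤ |h| + |k| := e2
      _ ≤ _ := by rw [add_mul, one_mul]; linarith
  have h4 := h3.trans_isBigO hO
  have hξ' : HasDerivAt ξ (-B₁ / B₂) y0 := by
    rw [hasDerivAt_iff_isLittleO]
    refine (h4.const_mul_left (1 / B₂)).congr_left ?_
    intro y
    simp only [smul_eq_mul]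
    field_simp
    ring
  have hG1 : HasFDerivAt (fun p => (G p).1)
      (A₁ • ContinuousLinearMap.fst ℝ ℝ ℝ + A₂ • ContinuousLinearMap.snd ℝ ℝ ℝ) (y0, ξ y0) :=
    hG.fst
  have h5 := hG1.comp_hasDerivAt y0 ((hasDerivAt_id y0).prodMk hξ')
  have e : (A₁ * B₂ - A₂ * B₁) / B₂ =
      (A₁ • ContinuousLinearMap.fst ℝ ℝ ℝ + A₂ • ContinuousLinearMap.snd ℝ ℝ ℝ) (1, -B₁ / B₂) := by
    simp
    field_simp
    ring
  rw [e]
  exact h5

theorem close (hJ : T_JAC) (hS : T_SLICE) (hC : T_CURVE) : T_CLOSE := by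
  intro lam hl w hw p p' hp hp' hv
  set v : ℝ := (run lam w p).2 with hvdef
  have hv2 : |v| < 2 := (InR_bd' hp).2
  have hvb := abs_lt.mp hv2
  -- bands on slices
  have band : ∀ y, |y| ≤ 2 → ∃ a b : ℝ, -2 ≤ a ∧ a < b ∧ b ≤ 2 ∧
      (∀ x, InR lam w (y, x) ↔ x ∈ Ioo a b) ∧
      (run lam w (y, a)).2 = -2 ∧ (run lam w (y, b)).2 = 2 ∧
      StrictMonoOn (fun x => (run lam w (y, x)).2) (Icc a b) := by
    intro y hy
    obtain ⟨hc, -⟩ := hS lam hl y hy
    obtain ⟨a, b, h1, h2, h3, h4, h5⟩ := hC lam hl _ _ _ hc w hw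
    refine ⟨a, b, h1, h2, h3, ?_, h5.xu, h5.xv, h5.xmono⟩
    intro x
    rw [← h4]
    simp only [Set.mem_ofPred_eq]
    constructor
    · intro h
      have := abs_lt.mp h.bd.2
      exact ⟨⟨this.1.le, this.2.le⟩, h⟩
    · exact fun h => h.2
  have mono : ∀ y, |y| ≤ 2 → ∀ x x', InR lam w (y, x) → InR lam w (y, x') → x < x' →
      (run lam w (y, x)).2 < (run lam w (y, x')).2 := by
    intro y hy x x' hx hx' hlt
    obtain ⟨a, b, _, _, _, h4, _, _, h7⟩ := band y hy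
    exact h7 (Ioo_subset_Icc_self ((h4 x).mp hx)) (Ioo_subset_Icc_self ((h4 x').mp hx')) hlt
  have inj : ∀ y, |y| ≤ 2 → ∀ x x', InR lam w (y, x) → InR lam w (y, x') →
      (run lam w (y, x)).2 = (run lam w (y, x')).2 → x = x' := by
    intro y hy x x' hx hx' he
    rcases lt_trichotomy x x' with h | h | h
    · have := mono y hy x x' hx hx' h; linarith
    · exact h
    · have := mono y hy x' x hx' hx h; linarith
  have ex : ∀ y, |y| ≤ 2 → ∃ x, InR lam w (y, x) ∧ (run lam w (y, x)).2 = v := by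
    intro y hy
    obtain ⟨a, b, _, h2, _, h4, h5, h6, h7⟩ := band y hy
    have hcont : ContinuousOn (fun x => (run lam w (y, x)).2) (Icc a b) :=
      (continuous_snd.comp ((run_cont lam w).comp (by fun_prop))).continuousOn
    have hmem : v ∈ Ioo ((run lam w (y, a)).2) ((run lam w (y, b)).2) := by
      rw [h5, h6]; exact ⟨hvb.1, hvb.2⟩
    obtain ⟨x, hx, hxv⟩ := intermediate_value_Ioo h2.le hcont hmem
    exact ⟨x, (h4 x).mpr hx, hxv⟩
  choose! ξ hξ1 hξ2 using ex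
  -- continuity
  obtain ⟨U, hU, hUi⟩ := InR_open hl w
  have hξc : ContinuousOn ξ (Icc (-2) 2) := by
    intro y0 hy0
    have hy0' : |y0| ≤ 2 := abs_le.mpr hy0
    have hmem : (y0, ξ y0) ∈ U := ((hUi _).mp (hξ1 y0 hy0')).1
    rw [ContinuousWithinAt, Metric.tendsto_nhds]
    intro ε hε
    obtain ⟨δ, hδ, hball⟩ := Metric.isOpen_iff.mp hU _ hmem
    set η := min (ε / 2) (δ / 2) with hη
    have hη0 : 0 < η := by positivity
    have hηε : η < ε := lt_of_le_of_lt (min_le_left _ _) (by linarith)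
    have hηδ : η < δ := lt_of_le_of_lt (min_le_right _ _) (by linarith)
    have key : ∀ x1, |x1 - ξ y0| ≤ η → ∀ᶠ y in 𝓝 y0, (y, x1) ∈ U := by
      intro x1 hx1
      have h1 : (y0, x1) ∈ U := by
        apply hball
        rw [Metric.mem_ball, Prod.dist_eq]
        apply max_lt
        · simpa using hδ
        · simp only [Real.dist_eq]; exact lt_of_le_of_lt hx1 hηδ
      exact (Continuous.tendsto (by fun_prop : Continuous fun y : ℝ => (y, x1)) y0).eventually
        (hU.mem_nhds h1)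
    have hlo : InR lam w (y0, ξ y0 - η) :=
      (hUi _).mpr ⟨(key _ (by rw [sub_sub_cancel_left, abs_neg, abs_of_pos hη0])).self_of_nhds,
        hy0'⟩
    have hhi : InR lam w (y0, ξ y0 + η) :=
      (hUi _).mpr ⟨(key _ (by rw [add_sub_cancel_left, abs_of_pos hη0])).self_of_nhds, hy0'⟩
    have hlt1 : (run lam w (y0, ξ y0 - η)).2 < v := by
      rw [← hξ2 y0 hy0']
      exact mono y0 hy0' _ _ hlo (hξ1 y0 hy0') (by linarith)
    have hlt2 : v < (run lam w (y0, ξ y0 + η)).2 := by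
      rw [← hξ2 y0 hy0']
      exact mono y0 hy0' _ _ (hξ1 y0 hy0') hhi (by linarith)
    have hcx : ∀ x1, Continuous (fun y => (run lam w (y, x1)).2) := fun x1 =>
      continuous_snd.comp ((run_cont lam w).comp (by fun_prop))
    have ev1 := (hcx (ξ y0 - η)).tendsto y0 |>.eventually (gt_mem_nhds hlt1)
    have ev2 := (hcx (ξ y0 + η)).tendsto y0 |>.eventually (lt_mem_nhds hlt2)
    have ev3 := key (ξ y0 - η) (by rw [sub_sub_cancel_left, abs_neg, abs_of_pos hη0])
    have ev4 := key (ξ y0 + η) (by rw [add_sub_cancel_left, abs_of_pos hη0])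
    filter_upwards [nhdsWithin_le_nhds ev1, nhdsWithin_le_nhds ev2, nhdsWithin_le_nhds ev3,
      nhdsWithin_le_nhds ev4, self_mem_nhdsWithin] with y g1 g2 g3 g4 g5
    have hy' : |y| ≤ 2 := abs_le.mpr g5
    have i1 : InR lam w (y, ξ y0 - η) := (hUi _).mpr ⟨g3, hy'⟩
    have i2 : InR lam w (y, ξ y0 + η) := (hUi _).mpr ⟨g4, hy'⟩
    have i3 := hξ1 y hy'
    have i4 := hξ2 y hy'
    have j1 : ξ y0 - η < ξ y := by
      by_contra hcon
      rcases eq_or_lt_of_le (not_lt.mp hcon) with h | h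
      · rw [h] at i4; linarith
      · have := mono y hy' _ _ i3 i1 h; linarith
    have j2 : ξ y < ξ y0 + η := by
      by_contra hcon
      rcases eq_or_lt_of_le (not_lt.mp hcon) with h | h
      · rw [← h] at i4; linarith
      · have := mono y hy' _ _ i2 i3 h; linarith
    rw [Real.dist_eq, abs_lt]
    constructor <;> linarith
  -- derivative
  set Y : ℝ → ℝ := fun y => (run lam w (y, ξ y)).1 with hY
  have hdeg : 1 ≤ deg w := deg_pos hw
  have hsv : 0 < Real.sqrt (4 - v ^ 2) := Real.sqrt_pos.mpr (by linarith [sq_lt_four hv2])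
  set M : ℝ := 2 * R lam / (deg w * Real.sqrt (4 - v ^ 2)) with hM
  have hM0 : 0 ≤ M := by have := R_pos lam; positivity
  have hYd : ∀ y ∈ Ioo (-2 : ℝ) 2, ∃ d, HasDerivAt Y d y ∧ |d| ≤ M / Real.sqrt (4 - y ^ 2) := by
    intro y hy
    have hy1 : |y| < 2 := abs_lt.mpr hy
    have hin := hξ1 y hy1.le
    have hx := abs_lt.mp hin.bd.2
    simp only at hx
    obtain ⟨A₁, A₂, B₁, B₂, hF, hdet⟩ := hJ lam hl w hw (y, ξ y) hy1 hin
    obtain ⟨r, hr, hr0, hrb⟩ := (hS lam hl y hy1.le).2 w hw (ξ y) ⟨hx.1, hx.2⟩ hin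
    have hB : B₂ = r := by
      have h1 : HasDerivAt (fun x' => (y, x')) ((0 : ℝ), (1 : ℝ)) (ξ y) :=
        (hasDerivAt_const _ _).prodMk (hasDerivAt_id _)
      have hF2 : HasFDerivAt (fun p => (run lam w p).2)
          (B₁ • ContinuousLinearMap.fst ℝ ℝ ℝ + B₂ • ContinuousLinearMap.snd ℝ ℝ ℝ) (y, ξ y) :=
        hF.snd
      have h2 := hF2.comp_hasDerivAt (ξ y) h1
      have h3 := HasDerivAt.unique h2 hr
      simpa using h3
    rw [hB] at hF hdet
    have hca : ContinuousAt ξ y :=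
      (hξc y (Ioo_subset_Icc_self hy)).continuousAt (Icc_mem_nhds hy.1 hy.2)
    have hev : ∀ᶠ y' in 𝓝 y, (run lam w (y', ξ y')).2 = v := by
      filter_upwards [Ioo_mem_nhds hy.1 hy.2] with y' hy'
      exact hξ2 y' (abs_lt.mpr hy').le
    have hd := impl hF hca hev hr0.ne'
    refine ⟨_, hd, ?_⟩
    have hSpos := S_bounds hl hy1.le hin.bd.2.le
    simp only at hSpos
    have hrun := InR_bd' hin
    have hS2 := S_bounds hl hrun.1 hrun.2.le
    have hsy : 0 < Real.sqrt (4 - y ^ 2) := Real.sqrt_pos.mpr (by linarith [sq_lt_four hy1])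
    rw [abs_div, abs_of_pos hr0, hM, div_div, div_le_div_iff₀ hr0 (by positivity)]
    have e1 : |A₁ * r - A₂ * B₁| * S lam y (ξ y) ≤ 2 * R lam := by
      rw [hdet]; exact hS2.2.1
    rw [hξ2 y hy1.le] at hrb
    have e2 := abs_nonneg (A₁ * r - A₂ * B₁)
    calc |A₁ * r - A₂ * B₁| * (deg w * Real.sqrt (4 - v ^ 2) * Real.sqrt (4 - y ^ 2))
        ≤ |A₁ * r - A₂ * B₁| * (S lam y (ξ y) * r) := mul_le_mul_of_nonneg_left hrb e2
      _ = |A₁ * r - A₂ * B₁| * S lam y (ξ y) * r := by ring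
      _ ≤ 2 * R lam * r := mul_le_mul_of_nonneg_right e1 hr0.le
  have hYc : ContinuousOn Y (Icc (-2) 2) := by
    apply continuous_fst.comp_continuousOn
    apply (run_cont lam w).comp_continuousOn
    exact continuousOn_id.prodMk hξc
  have hasin : ∀ y ∈ Ioo (-2 : ℝ) 2,
      HasDerivAt (fun y => M * Real.arcsin (y / 2)) (M / Real.sqrt (4 - y ^ 2)) y := by
    intro y hy
    have h1 := Real.hasDerivAt_arcsin (x := y / 2) (by linarith [hy.1] : -1 < y / 2).ne'
      (by linarith [hy.2] : y / 2 < 1).ne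
    have h2 : HasDerivAt (fun y : ℝ => y / 2) (1 / 2) y := (hasDerivAt_id y).div_const 2
    have h3 := (h1.comp y h2).const_mul M
    have hy1 : |y| < 2 := abs_lt.mpr hy
    have hsy : 0 < Real.sqrt (4 - y ^ 2) := Real.sqrt_pos.mpr (by linarith [sq_lt_four hy1])
    have e1 : Real.sqrt (1 - (y / 2) ^ 2) = Real.sqrt (4 - y ^ 2) / 2 := by
      rw [show (1 - (y / 2) ^ 2 : ℝ) = (4 - y ^ 2) / 2 ^ 2 by ring,
        Real.sqrt_div (by linarith [sq_lt_four hy1]), Real.sqrt_sq (by norm_num)]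
    rw [e1] at h3
    have e2 : M / Real.sqrt (4 - y ^ 2) = M * (1 / (Real.sqrt (4 - y ^ 2) / 2) * (1 / 2)) := by
      field_simp
    rw [e2]
    exact h3
  -- comparison on the interval
  have hac : ContinuousOn (fun y => M * Real.arcsin (y / 2)) (Icc (-2) 2) :=
    (continuous_const.mul (Real.continuous_arcsin.comp (by fun_prop))).continuousOn
  have cmp : ∀ c : ℝ, |c| = 1 →
      MonotoneOn (fun y => M * Real.arcsin (y / 2) + c * Y y) (Icc (-2) 2) := by
    intro c hc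
    have hd : ∀ y ∈ Ioo (-2 : ℝ) 2, ∃ d, HasDerivAt Y d y ∧ |d| ≤ M / Real.sqrt (4 - y ^ 2) ∧
        HasDerivAt (fun y => M * Real.arcsin (y / 2) + c * Y y)
          (M / Real.sqrt (4 - y ^ 2) + c * d) y := by
      intro y hy
      obtain ⟨d, hd, hb⟩ := hYd y hy
      exact ⟨d, hd, hb, (hasin y hy).add (hd.const_mul c)⟩
    refine monotoneOn_of_deriv_nonneg (convex_Icc _ _) (hac.add (continuousOn_const.mul hYc)) ?_ ?_
    · intro y hy
      rw [interior_Icc] at hy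
      obtain ⟨d, _, _, h3⟩ := hd y hy
      exact h3.differentiableAt.differentiableWithinAt
    · intro y hy
      rw [interior_Icc] at hy
      obtain ⟨d, _, hb, h3⟩ := hd y hy
      refine le_of_le_of_eq ?_ h3.deriv.symm
      have : |c * d| ≤ M / Real.sqrt (4 - y ^ 2) := by rw [abs_mul, hc, one_mul]; exact hb
      linarith [neg_abs_le (c * d)]
  have hrange : ∀ y : ℝ, |Real.arcsin (y / 2)| ≤ Real.pi / 2 := fun y =>
    abs_le.mpr ⟨Real.neg_pi_div_two_le_arcsin _, Real.arcsin_le_pi_div_two _⟩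
  have main : ∀ y y' : ℝ, |y| ≤ 2 → |y'| ≤ 2 → y ≤ y' → |Y y - Y y'| ≤ M * Real.pi := by
    intro y y' hy hy' hle
    have c1 := cmp 1 (by norm_num) (abs_le.mp hy) (abs_le.mp hy') hle
    have c2 := cmp (-1) (by norm_num) (abs_le.mp hy) (abs_le.mp hy') hle
    simp only at c1 c2
    have r1 := abs_le.mp (hrange y)
    have r2 := abs_le.mp (hrange y')
    have t1 : M * Real.arcsin (y' / 2) - M * Real.arcsin (y / 2) ≤ M * Real.pi := by
      rw [← mul_sub]
      exact mul_le_mul_of_nonneg_left (by linarith) hM0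
    rw [abs_le]
    constructor <;> linarith
  have hfin : |(run lam w p).1 - (run lam w p').1| ≤ M * Real.pi := by
    have e1 : ξ p.1 = p.2 := inj p.1 hp.bd.1 _ _ (hξ1 p.1 hp.bd.1) hp (hξ2 p.1 hp.bd.1)
    have e2 : ξ p'.1 = p'.2 :=
      inj p'.1 hp'.bd.1 _ _ (hξ1 p'.1 hp'.bd.1) hp' ((hξ2 p'.1 hp'.bd.1).trans hv)
    have f1 : Y p.1 = (run lam w p).1 := by simp only [hY, e1]
    have f2 : Y p'.1 = (run lam w p').1 := by simp only [hY, e2]
    rw [← f1, ← f2]
    rcases le_total p.1 p'.1 with h | h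
    · exact main _ _ hp.bd.1 hp'.bd.1 h
    · rw [abs_sub_comm]; exact main _ _ hp'.bd.1 hp.bd.1 h
  have hq : 0 < deg w * Real.sqrt (4 - v ^ 2) := by positivity
  calc |(run lam w p).1 - (run lam w p').1| * (deg w * Real.sqrt (4 - v ^ 2))
      ≤ M * Real.pi * (deg w * Real.sqrt (4 - v ^ 2)) := mul_le_mul_of_nonneg_right hfin hq.le
    _ = 2 * Real.pi * R lam := by rw [hM]; field_simp

end H31.ST.H56
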