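import Pool.Agent.H31.ST.Basic

/-! COM and ESC for MP_0b97f5_mp.  helper56 -/

open Set Filter Topology Matrix

noncomputable section

namespace H31.ST.H56

open H31.ST

theorem CH (B : Mat) (hB : B.det = 1) : B * B = B.trace • B - 1 := by
  rw [Matrix.det_fin_two] at hB
  ext i j
  fin_cases i <;> fin_cases j <;>
    simp [Matrix.mul_apply, Fin.sum_univ_two, Matrix.trace_fin_two] <;>
    first | ring1 | linear_combination (-1 : ℝ) * hB

theorem tr_rec (A B : Mat) (hB : B.det = 1) (m : ℕ) :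
    (A * B ^ (m + 2)).trace = B.trace * (A * B ^ (m + 1)).trace - (A * B ^ m).trace := by
  have h : A * B ^ (m + 2) = B.trace • (A * B ^ (m + 1)) - A * B ^ m := by
    rw [pow_add, sq, CH B hB, pow_succ, mul_sub, mul_sub, mul_one]
    simp
  rw [h, Matrix.trace_sub, Matrix.trace_smul, smul_eq_mul]

theorem form_inv (A B : Mat) (hB : B.det = 1) (m : ℕ) :
    B.trace ^ 2 + (A * B ^ m).trace ^ 2 + (A * B ^ (m + 1)).trace ^ 2
      - B.trace * (A * B ^ m).trace * (A * B ^ (m + 1)).trace =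
    B.trace ^ 2 + A.trace ^ 2 + (A * B).trace ^ 2 - B.trace * A.trace * (A * B).trace := by
  induction m with
  | zero => simp
  | succ m ih =>
    rw [← ih, tr_rec A B hB m]
    ring

theorem det_Mm (lam : ℝ) (a : ℕ → ℕ) (E : ℝ) (n : ℕ) :
    (Mm lam a E n).det = 1 ∧ (Mm lam a E (n + 1)).det = 1 := by
  induction n with
  | zero => constructor <;> simp [Mm, Matrix.det_fin_two]
  | succ n ih =>
    refine ⟨ih.2, ?_⟩
    simp only [Mm, Matrix.det_mul, Matrix.det_pow, ih.1, ih.2, one_pow, mul_one]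

theorem tr_swap (A B : Mat) (m : ℕ) : (B * (A * B ^ m)).trace = (A * B ^ (m + 1)).trace := by
  rw [Matrix.trace_mul_comm, pow_succ, Matrix.mul_assoc]

theorem com : T_COM := by
  intro lam a E n
  refine ⟨(det_Mm lam a E n).1, ?_⟩
  induction n with
  | zero =>
    simp [xt, Mm, Matrix.trace_fin_two]
    ring
  | succ n ih =>
    have hd := (det_Mm lam a E n).2
    have h := form_inv (Mm lam a E n) (Mm lam a E (n + 1)) hd (a n)
    have h2 : (Mm lam a E (n + 1) * Mm lam a E (n + 2)).trace =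
        (Mm lam a E n * Mm lam a E (n + 1) ^ (a n + 1)).trace := by
      simp only [Mm]
      exact tr_swap _ _ _
    unfold xt at ih ⊢
    rw [show n + 1 + 1 = n + 2 from rfl, h2]
    simp only [Mm] at h ⊢
    rw [h]
    rw [← ih]
    ring

/-- growth -/
theorem grow {x t0 t1 t2 : ℝ} (_hx : 2 < |x|) (h : |t0| < |t1|) (h2 : t2 = x * t1 - t0) :
    (|x| - 1) * |t1| < |t2| := by
  have h3 : |x * t1| - |t0| ≤ |t2| := by
    rw [h2]; exact abs_sub_abs_le_abs_sub _ _
  rw [abs_mul] at h3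
  have := abs_nonneg t0
  nlinarith

theorem grow' {x t0 t1 t2 : ℝ} (hx : 2 < |x|) (h : |t0| < |t1|) (h2 : t2 = x * t1 - t0) :
    |t1| < |t2| := by
  have h3 := grow hx h h2
  have := abs_nonneg t0
  nlinarith

/-- the sequence `tr(A B^m)` -/
theorem seq_grow (A B : Mat) (hB : B.det = 1) (hx : 2 < |B.trace|) (k : ℕ)
    (h : |(A * B ^ k).trace| < |(A * B ^ (k + 1)).trace|) (m : ℕ) (hm : k ≤ m) :
    |(A * B ^ m).trace| < |(A * B ^ (m + 1)).trace| := by
  induction m, hm using Nat.le_induction with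
  | base => exact h
  | succ m hm ih => exact grow' hx ih (tr_rec A B hB m)

/-- invariant -/
def Inv (lam : ℝ) (a : ℕ → ℕ) (E : ℝ) (n : ℕ) : Prop :=
  2 < |xt lam a n E| ∧ 2 < |xt lam a (n + 1) E| ∧
    |xt lam a n E| < |(Mm lam a E n * Mm lam a E (n + 1)).trace|

theorem inv_of {lam : ℝ} {a : ℕ → ℕ} {E : ℝ} {n : ℕ}
    (hx : 2 < |xt lam a (n + 1) E|) (h2 : 2 < |xt lam a (n + 2) E|)
    (h : |(Mm lam a E n * Mm lam a E (n + 1) ^ (a n - 1)).trace| <
      |(Mm lam a E n * Mm lam a E (n + 1) ^ (a n - 1 + 1)).trace|) (ha : 1 ≤ a n) :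
    Inv lam a E (n + 1) := by
  refine ⟨hx, h2, ?_⟩
  have hd := (det_Mm lam a E n).2
  have h3 : (Mm lam a E (n + 1) * Mm lam a E (n + 2)).trace =
      (Mm lam a E n * Mm lam a E (n + 1) ^ (a n - 1 + 2)).trace := by
    have e : a n - 1 + 2 = a n + 1 := by omega
    rw [e, ← tr_swap]
    rfl
  have h4 : xt lam a (n + 2) E = (Mm lam a E n * Mm lam a E (n + 1) ^ (a n - 1 + 1)).trace := by
    have e : a n - 1 + 1 = a n := by omega
    rw [e]
    rfl
  rw [show n + 1 + 1 = n + 2 from rfl, h3]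
  have h5 := grow hx h (tr_rec _ _ hd (a n - 1))
  rw [← h4] at h5
  unfold xt at h5 h2 hx ⊢
  nlinarith

theorem inv_step {lam : ℝ} {a : ℕ → ℕ} (ha : ∀ k, 1 ≤ a k) {E : ℝ} {n : ℕ}
    (h : Inv lam a E n) : Inv lam a E (n + 1) := by
  obtain ⟨h1, h2, h3⟩ := h
  have hd := (det_Mm lam a E n).2
  have hg := seq_grow (Mm lam a E n) (Mm lam a E (n + 1)) hd h2 0
    (by simpa [xt] using h3)
  have hmon : ∀ m, |xt lam a n E| ≤ |(Mm lam a E n * Mm lam a E (n + 1) ^ m).trace| := by
    intro m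
    induction m with
    | zero => simp [xt]
    | succ m ih => exact ih.trans (hg m (Nat.zero_le _)).le
  refine inv_of h2 ?_ (hg _ (Nat.zero_le _)) (ha n)
  have h4 : xt lam a (n + 2) E = (Mm lam a E n * Mm lam a E (n + 1) ^ (a n)).trace := rfl
  rw [h4]
  exact lt_of_lt_of_le h1 (hmon _)

theorem esc : T_ESC := by
  intro lam hl a ha n E h1 h2 m hm
  classical
  have hex : ∃ n, 2 < |xt lam a n E| ∧ 2 < |xt lam a (n + 1) E| := ⟨n, h1, h2⟩
  set n0 := Nat.find hex with hn0
  have hs := Nat.find_spec hex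
  rw [← hn0] at hs
  have hle : n0 ≤ n := Nat.find_min' hex ⟨h1, h2⟩
  have hne : n0 ≠ 0 := by
    intro h0
    rw [h0] at hs
    have : xt lam a 0 E = 2 := by simp [xt, Mm, Matrix.trace_fin_two]; norm_num
    rw [this] at hs
    norm_num at hs
  obtain ⟨k, hk⟩ : ∃ k, n0 = k + 1 := ⟨n0 - 1, by omega⟩
  have hmin : ¬ (2 < |xt lam a k E| ∧ 2 < |xt lam a (k + 1) E|) :=
    Nat.find_min hex (by rw [← hn0]; omega)
  rw [hk] at hs
  have hk2 : |xt lam a k E| ≤ 2 := by
    by_contra h
    exact hmin ⟨not_le.mp h, hs.1⟩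
  have hd := (det_Mm lam a E k).2
  have hI : Inv lam a E (k + 1) := by
    refine inv_of hs.1 hs.2 ?_ (ha k)
    -- some step grows
    by_contra hcon
    have hall : ∀ m, m ≤ a k → |(Mm lam a E k * Mm lam a E (k + 1) ^ m).trace| ≤ 2 := by
      intro m
      induction m with
      | zero => intro _; simpa [xt] using hk2
      | succ m ih =>
        intro hm
        have h3 : ¬ |(Mm lam a E k * Mm lam a E (k + 1) ^ m).trace| <
            |(Mm lam a E k * Mm lam a E (k + 1) ^ (m + 1)).trace| := by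
          intro h4
          exact hcon (seq_grow _ _ hd hs.1 m h4 (a k - 1) (by omega))
        exact (not_lt.mp h3).trans (ih (by omega))
    have h5 := hall (a k) le_rfl
    have h6 : xt lam a (k + 1 + 1) E = (Mm lam a E k * Mm lam a E (k + 1) ^ (a k)).trace := rfl
    rw [← h6] at h5
    linarith [hs.2]
  have hall : ∀ j, k + 1 ≤ j → Inv lam a E j := by
    intro j hj
    induction j, hj using Nat.le_induction with
    | base => exact hI
    | succ j hj ih => exact inv_step ha ih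
  exact (hall m (by omega)).1

end H31.ST.H56
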