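import Pool.Agent.H31.ST.Basic

/-! CONT for MP_0b97f5_mp.  helper56 -/

open Set Filter Topology Matrix

noncomputable section

namespace H31.ST.H56

open H31.ST

variable {lam : ℝ}

theorem S_cont (lam : ℝ) : Continuous (fun p : ℝ × ℝ => S lam p.1 p.2) := by
  unfold S; fun_prop

theorem zz_cont (lam : ℝ) : Continuous (fun p : ℝ × ℝ => zz lam p.1 p.2) := by
  unfold zz
  have := S_cont lam
  fun_prop

theorem T_cont (lam : ℝ) (m : ℕ) : Continuous (fun p : ℝ × ℝ => T lam p.1 p.2 m) ∧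
    Continuous (fun p : ℝ × ℝ => T lam p.1 p.2 (m + 1)) := by
  induction m with
  | zero =>
    constructor
    · simp only [T]; fun_prop
    · simp only [T]; exact zz_cont lam
  | succ m ih =>
    refine ⟨ih.2, ?_⟩
    have h1 := ih.1
    have h2 := ih.2
    simp only [T]
    fun_prop

theorem X_cont (lam : ℝ) (s : Sym) : Continuous (fun p : ℝ × ℝ => X lam s p.1 p.2) := by
  unfold X
  have h := (T_cont lam s.m).1
  have : Continuous (fun p : ℝ × ℝ => T lam (s.e * p.1) p.2 s.m) :=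
    h.comp (g := fun p : ℝ × ℝ => T lam p.1 p.2 s.m) (f := fun p : ℝ × ℝ => (s.e * p.1, p.2))
      (by fun_prop)
  exact continuous_const.mul this

theorem stepP_cont (lam : ℝ) (s : Sym) : Continuous (stepP lam s) := by
  unfold stepP
  exact continuous_snd.prodMk (X_cont lam s)

theorem run_cont (lam : ℝ) (w : List Sym) : Continuous (run lam w) := by
  induction w with
  | nil => exact continuous_id
  | cons s w ih => exact ih.comp (stepP_cont lam s)

theorem g_cont (hl : 0 < lam) : ContinuousOn (fun x : ℝ => g lam x) {x | |x| ≤ 2} := by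
  unfold g
  apply ContinuousOn.sqrt
  apply ContinuousOn.div (by fun_prop) (by fun_prop)
  intro x hx
  have hx : |x| ≤ 2 := hx
  have h1 : x ^ 2 ≤ 4 := by
    rw [← sq_abs]; have := abs_nonneg x; nlinarith
  have : 0 < lam ^ 2 := by positivity
  have : 0 < 4 + lam ^ 2 - x ^ 2 := by linarith
  positivity

theorem Psi_cont' (hl : 0 < lam) (s : Sym) :
    ContinuousOn (fun p : ℝ × ℝ => Psi lam s p.1 p.2) {p | |p.2| ≤ 2} := by
  unfold Psi phi theta
  have hg : ContinuousOn (fun p : ℝ × ℝ => g lam p.2) {p | |p.2| ≤ 2} :=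
    (g_cont hl).comp continuousOn_snd (fun p hp => hp)
  apply ContinuousOn.add
  · apply Continuous.continuousOn
    exact continuous_const.mul (Real.continuous_arccos.comp (by fun_prop))
  · apply Real.continuous_arccos.comp_continuousOn
    exact ContinuousOn.mul (by fun_prop) hg

theorem InR1_open (hl : 0 < lam) (s : Sym) :
    ∃ U : Set (ℝ × ℝ), IsOpen U ∧ (∀ p, InR1 lam s p ↔ p ∈ U ∧ |p.1| ≤ 2) ∧
      ∀ p ∈ U, |p.2| < 2 := by
  have hV : IsOpen {p : ℝ × ℝ | |p.2| < 2} :=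
    isOpen_lt (by fun_prop) continuous_const
  have hP : ContinuousOn (fun p : ℝ × ℝ => Psi lam s p.1 p.2) {p | |p.2| < 2} :=
    (Psi_cont' hl s).mono (fun p (hp : |p.2| < 2) => (hp.le : |p.2| ≤ 2))
  have h1 : IsOpen ({p : ℝ × ℝ | |p.2| < 2} ∩
      (fun p : ℝ × ℝ => Psi lam s p.1 p.2) ⁻¹' (Ioo (s.i * Real.pi) ((s.i + 1) * Real.pi))) :=
    hP.isOpen_inter_preimage hV isOpen_Ioo
  have h2 : IsOpen {p : ℝ × ℝ | |X lam s p.1 p.2| < 2} :=
    isOpen_lt (X_cont lam s).abs continuous_const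
  refine ⟨_, h1.inter h2, ?_, ?_⟩
  · intro p
    unfold InR1
    simp only [mem_inter_iff, Set.mem_ofPred_eq, mem_preimage, mem_Ioo]
    tauto
  · intro p hp
    exact hp.1.1

theorem InR_open (hl : 0 < lam) (w : List Sym) :
    ∃ U : Set (ℝ × ℝ), IsOpen U ∧ ∀ p, InR lam w p ↔ p ∈ U ∧ |p.1| ≤ 2 := by
  induction w with
  | nil =>
    refine ⟨{p : ℝ × ℝ | |p.2| < 2}, isOpen_lt (by fun_prop) continuous_const, ?_⟩
    intro p
    simp only [InR_nil, Set.mem_ofPred_eq]
    tauto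
  | cons s w ih =>
    obtain ⟨U, hU, h⟩ := ih
    obtain ⟨U1, hU1, h1, h2⟩ := InR1_open hl s
    refine ⟨U1 ∩ (stepP lam s) ⁻¹' U, hU1.inter (hU.preimage (stepP_cont lam s)), ?_⟩
    intro p
    rw [InR_cons, h1, h]
    simp only [mem_inter_iff, mem_preimage]
    constructor
    · tauto
    · rintro ⟨⟨h3, h4⟩, h5⟩
      exact ⟨⟨h3, h5⟩, h4, (h2 p h3).le⟩

theorem cont : T_CONT := by
  intro lam hl
  refine ⟨fun s => (Psi_cont' hl s).mono (fun p hp => hp.2),
    fun s => (X_cont lam s).continuousOn, ?_, fun w => (run_cont lam w).continuousOn⟩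
  intro w
  obtain ⟨U, hU, h⟩ := InR_open hl w
  refine ⟨U, hU, ?_⟩
  ext p
  simp only [Set.mem_ofPred_eq, mem_inter_iff, h]

end H31.ST.H56
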