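import Pool.Agent.H31.ST.Basic

/-! POLY for MP_0b97f5_mp.  helper56 -/

open Set Filter Topology Matrix

noncomputable section

namespace H31.ST.H56

open H31.ST Polynomial

abbrev PMat := Matrix (Fin 2) (Fin 2) ℝ[X]

/-- the class `C_q` -/
structure Cls (q : ℕ) (A : PMat) : Prop where
  mon : (A 0 0).Monic
  deg : (A 0 0).degree = q
  d01 : (A 0 1).degree < q
  d10 : (A 1 0).degree < q
  d11 : (A 1 1).degree < q

theorem deg_mul_lt {p r : ℝ[X]} {m n : ℕ} (h1 : p.degree ≤ m) (h2 : r.degree < n) :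
    (p * r).degree < ((m + n : ℕ) : WithBot ℕ) := by
  rw [degree_mul, Nat.cast_add]
  by_cases hr : r.degree = ⊥
  · rw [hr, WithBot.add_bot]; exact WithBot.bot_lt_coe (m + n)
  · exact lt_of_le_of_lt (add_le_add_left h1 _)
      (WithBot.add_lt_add_left (by simp) h2)

theorem Cls.mul {p q : ℕ} {A B : PMat} (hA : Cls p A) (hB : Cls q B) : Cls (p + q) (A * B) := by
  have e : ∀ i j, (A * B) i j = A i 0 * B 0 j + A i 1 * B 1 j := by
    intro i j; rw [Matrix.mul_apply, Fin.sum_univ_two]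
  have h1 : (A 0 1 * B 1 0).degree < ((p + q : ℕ) : WithBot ℕ) := deg_mul_lt hA.d01.le hB.d10
  have h2 : (A 0 0 * B 0 0).degree = ((p + q : ℕ) : WithBot ℕ) := by
    rw [degree_mul, hA.deg, hB.deg, Nat.cast_add]
  constructor
  · rw [e]
    exact (hA.mon.mul hB.mon).add_of_left (by rw [h2]; exact h1)
  · rw [e, degree_add_eq_left_of_degree_lt (by rw [h2]; exact h1), h2]
  · rw [e]
    exact lt_of_le_of_lt (degree_add_le _ _) (max_lt (deg_mul_lt hA.deg.le hB.d01)
      (deg_mul_lt hA.d01.le hB.d11))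
  · rw [e]
    refine lt_of_le_of_lt (degree_add_le _ _) (max_lt ?_ (deg_mul_lt hA.d11.le hB.d10))
    rw [mul_comm, add_comm]
    exact deg_mul_lt hB.deg.le hA.d10
  · rw [e]
    exact lt_of_le_of_lt (degree_add_le _ _) (max_lt (deg_mul_lt hA.d10.le hB.d01)
      (deg_mul_lt hA.d11.le hB.d11))

theorem Cls.pow {q : ℕ} {A : PMat} (hA : Cls q A) (m : ℕ) : Cls ((m + 1) * q) (A ^ (m + 1)) := by
  induction m with
  | zero => simpa using hA
  | succ m ih =>
    rw [pow_succ, show (m + 1 + 1) * q = (m + 1) * q + q by ring]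
    exact ih.mul hA

theorem Cls.mul_left {q : ℕ} {B : PMat} (lam : ℝ) (hB : Cls q B) :
    Cls q (!![1, -C lam; 0, 1] * B) := by
  have e : ∀ j, (!![1, -C lam; 0, 1] * B) 0 j = B 0 j + (-C lam) * B 1 j := by
    intro j; rw [Matrix.mul_apply, Fin.sum_univ_two]; simp
  have e' : ∀ j, (!![1, -C lam; 0, 1] * B) 1 j = B 1 j := by
    intro j; rw [Matrix.mul_apply, Fin.sum_univ_two]; simp
  have hc : ∀ p : ℝ[X], (-C lam * p).degree ≤ p.degree := by
    intro p
    rw [neg_mul, degree_neg]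
    by_cases h : lam = 0
    · simp [h]
    · rw [degree_C_mul h]
  have h1 : (-C lam * B 1 0).degree < (B 0 0).degree := by
    rw [hB.deg]; exact lt_of_le_of_lt (hc _) hB.d10
  constructor
  · rw [e]; exact hB.mon.add_of_left h1
  · rw [e, degree_add_eq_left_of_degree_lt h1, hB.deg]
  · rw [e]
    exact lt_of_le_of_lt (degree_add_le _ _) (max_lt hB.d01 (lt_of_le_of_lt (hc _) hB.d11))
  · rw [e']; exact hB.d10
  · rw [e']; exact hB.d11

/-- polynomial version of the transfer matrices -/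
def PM (lam : ℝ) (a : ℕ → ℕ) : ℕ → PMat
  | 0 => !![1, -C lam; 0, 1]
  | 1 => !![Polynomial.X, -1; 1, 0]
  | (n + 2) => PM lam a n * (PM lam a (n + 1)) ^ (a n)

theorem PM_eval (lam : ℝ) (a : ℕ → ℕ) (E : ℝ) (n : ℕ) :
    (evalRingHom E).mapMatrix (PM lam a n) = Mm lam a E n ∧
    (evalRingHom E).mapMatrix (PM lam a (n + 1)) = Mm lam a E (n + 1) := by
  induction n with
  | zero =>
    constructor
    · ext i j
      fin_cases i <;> fin_cases j <;> simp [PM, Mm]
    · ext i j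
      fin_cases i <;> fin_cases j <;> simp [PM, Mm]
  | succ n ih =>
    refine ⟨ih.2, ?_⟩
    simp only [PM, Mm, map_mul, map_pow]
    rw [ih.1, ih.2]

theorem PM_cls (lam : ℝ) (a : ℕ → ℕ) (ha : ∀ k, 1 ≤ a k) (n : ℕ) :
    Cls (qd a (n + 1)) (PM lam a (n + 1)) ∧ Cls (qd a (n + 2)) (PM lam a (n + 2)) := by
  have h1 : Cls (qd a 1) (PM lam a 1) := by
    simp only [qd, PM]
    constructor
    · simp
    · simp
    · simp
    · simp
    · simp
  induction n with
  | zero =>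
    refine ⟨h1, ?_⟩
    simp only [qd, PM]
    obtain ⟨b, hb⟩ : ∃ b, a 0 = b + 1 := ⟨a 0 - 1, by have := ha 0; omega⟩
    rw [hb, add_zero]
    exact Cls.mul_left lam (h1.pow b)
  | succ n ih =>
    refine ⟨ih.2, ?_⟩
    rw [show n + 1 + 2 = (n + 1) + 2 from rfl]
    simp only [qd, PM]
    obtain ⟨b, hb⟩ : ∃ b, a (n + 1) = b + 1 := ⟨a (n + 1) - 1, by have := ha (n + 1); omega⟩
    rw [hb, add_comm]
    exact ih.1.mul (ih.2.pow b)

theorem poly : T_POLY := by
  intro lam a ha n hn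
  obtain ⟨k, rfl⟩ : ∃ k, n = k + 1 := ⟨n - 1, by omega⟩
  have h := (PM_cls lam a ha k).1
  have hlt : (PM lam a (k + 1) 1 1).degree < (PM lam a (k + 1) 0 0).degree := by
    rw [h.deg]; exact h.d11
  refine ⟨PM lam a (k + 1) 0 0 + PM lam a (k + 1) 1 1, h.mon.add_of_left hlt, ?_, ?_⟩
  · apply natDegree_eq_of_degree_eq_some
    rw [degree_add_eq_left_of_degree_lt hlt, h.deg]
  · intro E
    have := (PM_eval lam a E (k + 1)).1
    unfold xt
    rw [← this, Matrix.trace_fin_two]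
    simp

end H31.ST.H56
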